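import Mathlib
import Pool.Agent.H10.RayB

set_option autoImplicit false

namespace Pool.Agent.Results.MP_16b74e_gt.Equiv
open Pool.Agent.H10.Ray

theorem result (X : Type*) [MetricSpace X] [IsUltrametricDist X] [Infinite X] :
    (∃ A : Set X, A ≠ Set.univ ∧ TotallyBounded A ∧ RayGen A ∧ CompleteSpace X ∧ Dense A) ↔
      (CompactSpace X ∧ ∃ (T : SimpleGraph X) (l : X → ℝ), Starlike T ∧ Rayless T ∧ Gen T l) :=
  ⟨fun ⟨_, a, b, c, _, d⟩ => fwd a b c d, fun ⟨_, _, _, a, _, b⟩ =>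
    (bwd a b).imp fun _ h => ⟨h.1, h.2.1, h.2.2.1, inferInstance, h.2.2.2⟩⟩

end Pool.Agent.Results.MP_16b74e_gt.Equiv
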